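import Pool.Agent.Work.MP_c1fc37_lc.Strat

/-! A Bernstein type coding: no chain condition is needed when the continuum function takes only
one value above `μ` on the cardinals up to `μ`. -/

universe u v

namespace Pool.Agent.Work.MP_c1fc37_lc.Bn

open Cardinal Set St

theorem bernstein {J X : Type v} (A : J → Set X) (h : ∀ j, #J ≤ #(A j)) :
    ∃ f : J → X, Function.Injective f ∧ ∀ j, f j ∈ A j := by
  obtain ⟨_, _, hr⟩ := Cardinal.exists_ord_eq_type_lt J
  have key : ∀ (j : J) (g : Iio j → X), ∃ x ∈ A j, x ∉ range g := fun j g => by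
    by_contra! hc
    exact absurd ((h j).trans ((mk_le_mk_of_subset hc).trans mk_range_le))
      (not_le.2 (Cardinal.mk_Iio_lt j hr))
  choose φ h1 h2 using key
  let f : J → X := WellFoundedLT.fix fun j g => φ j fun i => g i.1 i.2
  have hf : ∀ j, f j = φ j fun i => f i.1 := fun j => WellFoundedLT.fix_eq _ j
  have hne : ∀ i j, i < j → f i ≠ f j := fun i j hij e =>
    h2 j (fun i => f i.1) ⟨⟨i, hij⟩, e.trans (hf j)⟩
  refine ⟨f, fun i j e => ?_, fun j => hf j ▸ h1 j _⟩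
  rcases lt_trichotomy i j with h | h | h
  exacts [absurd e (hne _ _ h), h, absurd e.symm (hne _ _ h)]

variable {κ μ : Cardinal.{u}} {P : Set (Set (Node κ))} {a : Ordinal.{u}}

/-- Nodes shorter than `a`. -/
abbrev Sh (κ : Cardinal.{u}) (a : Ordinal.{u}) :=
  {s : Node κ | s ∈ (univ : Set (Node κ)) ∧ s.len < a}

/-- The initial segments of the branches of length `a` of the tree of nodes `E`. -/
def fam (E : Sh κ a → Node κ) : Set (Node κ) :=
  {t | ∃ s : Node κ, s.len = a ∧ ∀ j < t.len, ∃ (v : Sh κ a) (i : Ordinal.{u}), i < a ∧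
    v.1 = s.restr i ∧
      (j < (E v).len ∧ t.bit j = (E v).bit j ∨ j = (E v).len ∧ t.bit j = s.bit i)}

theorem card_le (hκ : κ = Order.succ μ) {b : Ordinal.{u}} (hb : b < κ.ord) : b.card ≤ μ := by
  rwa [Cardinal.lt_ord, hκ, Order.lt_succ_iff] at hb

theorem exists_col (hμ : ℵ₀ ≤ μ) (hκ : κ = Order.succ μ) (hU : #(Sh κ a) ≤ lift.{u + 1} μ)
    (γ : Iio κ.ord) : ∃ c : Node κ → Iio κ.ord, ∀ E : Sh κ a → Node κ, (∀ v, (E v).len < γ.1) →
      lift.{u + 1} (2 ^ μ) ≤ #(fam E) → ∀ β, ∃ t ∈ fam E, c t = β := by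
  have h2 : μ ≤ 2 ^ μ := (cantor μ).le
  have hW : #(Sh κ γ.1) ≤ lift.{u + 1} (2 ^ μ) :=
    mk_lt_levels_le (hμ.trans h2) univ ((card_le hκ γ.2).trans h2) fun i hi => by
      have := mk_level (κ := κ) (hi.trans γ.2)
      simp only [mem_univ, true_and, this, lift_two_power]
      exact power_le_power_left two_ne_zero (lift_le.2 (card_le hκ (hi.trans γ.2)))
  let J := {E : Sh κ a → Sh κ γ.1 // lift.{u + 1} (2 ^ μ) ≤ #(fam fun v => (E v).1)} × Iio κ.ord
  have hJ : #J ≤ lift.{u + 1} (2 ^ μ) := by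
    have hi : ℵ₀ ≤ lift.{u + 1} μ := by simpa using hμ
    rw [mk_prod, lift_id, lift_id, ← mul_eq_self (c := lift.{u + 1} (2 ^ μ))
      (hi.trans (lift_le.2 h2))]
    refine mul_le_mul' ((mk_subtype_le _).trans ?_) ?_
    · rw [← power_def]
      refine (power_le_power_right hW).trans ((power_le_power_left
        (by rw [lift_two_power]; exact power_ne_zero _ two_ne_zero) hU).trans ?_)
      rw [lift_two_power, ← power_mul, mul_eq_self hi]
    · rw [mk_Iio_ordinal, card_ord, lift_le, hκ]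
      exact Order.succ_le_of_lt (cantor μ)
  obtain ⟨f, hf, hA⟩ := bernstein (fun j : J => fam fun v => (j.1.1 v).1) fun j => hJ.trans j.1.2
  refine ⟨Function.extend f Prod.snd fun _ => γ, fun E hE hc β => ?_⟩
  exact ⟨_, hA (⟨fun v => ⟨E v, trivial, hE v⟩, hc⟩, β), hf.extend_apply _ _ _⟩

theorem not_bounding (hμ : ℵ₀ ≤ μ) (hκ : κ = Order.succ μ) (hP : IsTreeForcing P)
    (hc : IsLtStratClosed P)
    (hH : ∀ τ ≤ μ, 2 ^ τ ≤ μ ∨ (2 : Cardinal.{u}) ^ τ = 2 ^ μ) : ¬ IsBounding P := by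
  intro hb
  have hreg : κ.IsRegular := hκ ▸ Cardinal.isRegular_succ hμ
  have hlim := Cardinal.isSuccLimit_ord hreg.aleph0_le
  have hsup : ∀ {I : Type (u + 1)} (g : I → Ordinal.{u}), #I ≤ lift.{u + 1} μ →
      (∀ i, g i < κ.ord) → ⨆ i, g i < κ.ord := fun g hI hg => by
    refine Ordinal.lift_iSup_lt_of_lt_cof ?_ hg
    rw [← Ordinal.lift_cof, hreg.cof_ord, Cardinal.lift_id'.{u, u + 1}]
    exact hI.trans_lt (by rw [Cardinal.lift_lt, hκ]; exact Order.lt_succ μ)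
  have hbd : ∀ {I : Type (u + 1)} (g : I → Ordinal.{u}), (∀ i, g i < κ.ord) → ∀ i, g i ≤ ⨆ i, g i :=
    fun g hg => le_ciSup ⟨κ.ord, by rintro _ ⟨s, rfl⟩; exact (hg s).le⟩
  obtain ⟨a, ha, hmin⟩ := wellFounded_lt.has_min {b : Ordinal.{u} | μ < 2 ^ b.card}
    ⟨μ.ord, by simpa using cantor μ⟩
  have haμ : a ≤ μ.ord := not_lt.1 (hmin _ (by simpa using cantor μ))
  have haκ : a < κ.ord := haμ.trans_lt (by rw [ord_lt_ord, hκ]; exact Order.lt_succ μ)
  have ha2 : (2 : Cardinal.{u}) ^ a.card = 2 ^ μ :=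
    (hH _ (card_le hκ haκ)).resolve_left (not_le.2 ha)
  have hU : #(Sh κ a) ≤ lift.{u + 1} μ := mk_lt_levels_le hμ univ (card_le hκ haκ) fun i hi => by
    have := mk_level (κ := κ) (hi.trans haκ)
    simp only [mem_univ, true_and, this, ← lift_two_power]
    exact lift_le.2 (not_lt.1 fun h => hmin i h hi)
  choose c hcol using exists_col hμ hκ hU
  let code : Node κ → Iio κ.ord := fun t =>
    ⟨⨆ δ : Iio (t.len + 1), (c ⟨t.len, t.len_lt⟩ (t.restr δ.1)).1, hsup _ (by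
      rw [mk_Iio_ordinal, lift_le]
      exact card_le hκ (hlim.add_one_lt t.len_lt)) fun _ => (c _ _).2⟩
  obtain ⟨p, hp⟩ := hP.nonempty
  obtain ⟨q, hq, -, z, hz⟩ := hb (St.codeName hP hc code) p hp
  obtain ⟨e, he⟩ := St.exists_emb hP hc hq haκ
  let γ : Iio κ.ord := ⟨(⨆ s : Sh κ a, (e s.1).len) + 1,
    hlim.add_one_lt (hsup _ hU fun s => (e s.1).len_lt)⟩
  have hγ : ∀ v : Sh κ a, (e v.1).len < γ.1 := fun v =>
    Order.lt_add_one_iff.2 (hbd (fun s : Sh κ a => (e s.1).len) (fun s => (e s.1).len_lt) v)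
  let d : Node κ → Ordinal.{u} := fun s => ⨆ i : Iio a, (e (s.restr i.1)).len + 1
  have hfam : lift.{u + 1} (2 ^ μ) ≤ #(fam fun v : Sh κ a => e v.1) := by
    rw [← ha2, lift_two_power, ← mk_level haκ]
    refine mk_le_of_injective (f := fun s => ⟨(e s.1).restr (d s.1), s.1, s.2, fun j hj => ?_⟩)
      fun s s' hss => ?_
    · obtain ⟨i, hi⟩ := exists_lt_of_lt_ciSup' (hj.trans_le (min_le_left _ _))
      have hx := (he s.1 s.2.le).2.2 i.1 (s.2.symm ▸ i.2)
      refine ⟨⟨s.1.restr i.1, trivial, (min_le_left _ _).trans_lt i.2⟩, i.1, i.2, rfl, ?_⟩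
      rw [Node.restr_bit _ hj]
      rcases (Order.lt_add_one_iff.1 hi).lt_or_eq with h | h
      · exact Or.inl ⟨h, ((Node.init_iff.1 hx.1).2 j h).symm⟩
      · exact Or.inr ⟨h, h ▸ hx.2.2⟩
    · by_contra hne
      obtain ⟨i, hi, hi1, -, hbit⟩ := St.emb_diverge he s.2.le (s.2.trans s'.2.symm)
        fun h => hne (Subtype.ext h)
      have hss' : (e s.1).restr (d s.1) = (e s'.1).restr (d s'.1) := congrArg Subtype.val hss
      have h1 : (e (s.1.restr i)).len < min (d s.1) (e s.1).len := lt_min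
        ((Order.lt_add_one_iff.2 le_rfl).trans_le (hbd (fun i : Iio a => (e (s.1.restr i.1)).len + 1)
          (fun i => hlim.add_one_lt (e _).len_lt) ⟨i, s.2 ▸ hi⟩)) hi1
      have h2 : (e (s.1.restr i)).len < min (d s'.1) (e s'.1).len :=
        h1.trans_eq (congrArg Node.len hss')
      exact hbit (by rw [← Node.restr_bit _ h1, ← Node.restr_bit _ h2, hss'])
  obtain ⟨t, ⟨s, hs, ht⟩, hct⟩ := hcol γ _ hγ hfam (z γ)
  have hj : ∀ j < t.len, j < γ.1 ∧ j < (e s).len ∧ t.bit j = (e s).bit j := fun j hj => by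
    obtain ⟨v, i, hi, hv, h⟩ := ht j hj
    have hx := (he s hs.le).2.2 i (hs ▸ hi)
    rw [← hv] at hx
    rcases h with ⟨h, h'⟩ | ⟨h, h'⟩
    · exact ⟨h.trans (hγ v), h.trans hx.2.1, h'.trans ((Node.init_iff.1 hx.1).2 j h)⟩
    · exact ⟨h ▸ hγ v, h ▸ hx.2.1, h'.trans (h ▸ hx.2.2.symm)⟩
  have htq : t ∈ q := hP.isTree q hq _ _ (Node.init_iff.2
    ⟨le_of_forall_lt fun j h => (hj j h).2.1, fun j h => (hj j h).2.2⟩) (he s hs.le).1
  have htγ : t.len ≤ γ.1 := le_of_forall_lt fun j h => (hj j h).1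
  obtain ⟨w, hw, hwl⟩ := St.exists_mem_len hP hc (hP.below_mem q hq t htq) γ.2
  have htw : t.Init w := hw.2.elim (fun h => by
    rw [h.eq_of_len (le_antisymm (Node.init_iff.1 h).1 (hwl ▸ htγ))]
    exact Node.init_refl _) id
  have hr : w.restr t.len = t := Node.ext_bit (min_eq_left (hwl ▸ htγ)) fun i hi => by
    rw [Node.restr_bit _ hi, (Node.init_iff.1 htw).2 i (hi.trans_le (min_le_left _ _))]
  have h1 : code w < z γ := hz γ _ (below q w) (hP.below_mem q hq w hw.1) (fun x hx => hx.1)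
    fun x hx hl => by rw [eq_of_mem_below hx (hl.trans hwl.symm)]
  refine absurd h1 (not_lt.2 ?_)
  have h2 := hbd (fun δ : Iio (w.len + 1) => (c ⟨w.len, w.len_lt⟩ (w.restr δ.1)).1)
    (fun _ => (c _ _).2) ⟨t.len, Order.lt_add_one_iff.2 (hwl ▸ htγ)⟩
  rw [← hct, ← hr, ← show (⟨w.len, w.len_lt⟩ : Iio κ.ord) = γ from Subtype.ext hwl]
  exact h2

theorem hyp_of_cc (hκ : κ = Order.succ μ) (hP : IsTreeForcing P) (hc : IsLtStratClosed P)
    (hcc : IsSuccCC P) : ∀ τ ≤ μ, 2 ^ τ ≤ μ ∨ (2 : Cardinal.{u}) ^ τ = 2 ^ μ := fun τ hτ => by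
  have h := St.two_pow_le_of_cc hP hc hcc (a := μ.ord)
  rw [mk_level (by rw [ord_lt_ord, hκ]; exact Order.lt_succ μ), card_ord, ← lift_two_power,
    lift_le, hκ] at h
  exact (le_or_gt _ _).imp_right fun h' =>
    le_antisymm (power_le_power_left two_ne_zero hτ) (h.trans (Order.succ_le_of_lt h'))

end Pool.Agent.Work.MP_c1fc37_lc.Bn
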